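import Pool.Agent.W84.FP.Defs
import Pool.Agent.Helper591.APRec

/-!
# Divergence of the sum of the reciprocals of the primes in a residue class
-/

set_option autoImplicit false

namespace Pool.Agent.W636.FP

open Pool.Agent.W84.FP
open Pool.Agent.Helper591.APRec (g g_nonneg not_summable_g)

theorem dir : S_DIR := by
  intro M P₀ R T hM hR
  have : NeZero M := ⟨by omega⟩
  have hu : IsUnit ((R : ℤ) : ZMod M) := by
    obtain ⟨a, b, h⟩ := hR
    refine isUnit_iff_exists_inv.2 ⟨(a : ZMod M), ?_⟩
    have h2 := congrArg (fun z : ℤ => (z : ZMod M)) h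
    push_cast at h2
    rw [ZMod.natCast_self, mul_zero, add_zero] at h2
    rw [mul_comm]; exact h2
  set a : ZMod M := ((R : ℤ) : ZMod M) with ha
  have hns : ¬ Summable (g a) := not_summable_g hu
  set f : ℕ → ℝ := fun n => if P₀ < n then g a n else 0 with hf
  have hf0 : ∀ n, 0 ≤ f n := by
    intro n
    rw [hf]
    dsimp only
    split_ifs
    · exact g_nonneg a n
    · exact le_rfl
  have hfs : ¬ Summable f := by
    intro h
    apply hns
    refine (summable_nat_add_iff (P₀ + 1)).1 ?_
    have h1 := (summable_nat_add_iff (P₀ + 1)).2 h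
    refine h1.congr fun n => ?_
    rw [hf]
    dsimp only
    rw [if_pos (by omega)]
  have ht := (not_summable_iff_tendsto_nat_atTop_of_nonneg hf0).1 hfs
  obtain ⟨N, hN⟩ := (ht.eventually_ge_atTop T).exists
  classical
  refine ⟨(Finset.range N).filter fun n => n.Prime ∧ P₀ < n ∧ (n : ZMod M) = a, ?_, ?_⟩
  · intro p hp
    rw [Finset.mem_filter] at hp
    refine ⟨hp.2.1, hp.2.2.1, ?_⟩
    have h3 := hp.2.2.2
    rw [← ZMod.intCast_zmod_eq_zero_iff_dvd]
    push_cast
    rw [h3, ha, sub_self]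
  · refine hN.trans (le_of_eq ?_)
    rw [Finset.sum_filter]
    refine Finset.sum_congr rfl fun n _ => ?_
    rw [hf]
    dsimp only [g]
    by_cases h1 : P₀ < n
    · rw [if_pos h1]
      by_cases h2 : n.Prime ∧ (n : ZMod M) = a
      · rw [if_pos h2, if_pos ⟨h2.1, h1, h2.2⟩]
      · rw [if_neg h2, if_neg fun h => h2 ⟨h.1, h.2.2⟩]
    · rw [if_neg h1, if_neg fun h => h1 h.2.1]

end Pool.Agent.W636.FP
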